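import Pool.Agent.Q79.HW.StmN

/-!
# HW-E1: test functions near infinity
-/

set_option autoImplicit false

open MeasureTheory Filter Topology Set
open scoped ENNReal NNReal Real

namespace Pool.Agent.Q121.HW

open Pool.Agent.Q79.HW

theorem int_k {g : ℝ → ℝ} (hm : Measurable g) (hg : Integrable g) {E : Set ℝ}
    (hE : ∀ x, x ∉ E → g x = 0) {x m : ℝ} (hm0 : 0 < m) (h : ∀ y ∈ E, m ≤ |x - y|) :
    Integrable (fun y => g y / (x - y)) ∧ (∀ y, |g y / (x - y)| ≤ m⁻¹ * |g y|) := by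
  have hb : ∀ y, |g y / (x - y)| ≤ m⁻¹ * |g y| := by
    intro y
    by_cases hy : y ∈ E
    · rw [abs_div, div_eq_inv_mul]
      exact mul_le_mul_of_nonneg_right (inv_anti₀ hm0 (h y hy)) (abs_nonneg _)
    · rw [hE y hy]
      simp
  refine ⟨?_, hb⟩
  refine Integrable.mono' (hg.norm.const_mul m⁻¹)
    (hm.div (measurable_const.sub measurable_id)).aestronglyMeasurable
    (Eventually.of_forall fun y => ?_)
  rw [Real.norm_eq_abs]
  exact hb y

/-- far test function: upper bound -/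
theorem far_le {g : ℝ → ℝ} (hm : Measurable g) (hg : Integrable g) (h0 : ∀ x, 0 ≤ g x)
    (h1 : ∫ x, g x = 1) {E : Set ℝ} (hE : ∀ x, x ∉ E → g x = 0) {x m : ℝ} (hm0 : 0 < m)
    (h : ∀ y ∈ E, m ≤ |x - y|) : |∫ y, g y / (x - y)| ≤ m⁻¹ := by
  obtain ⟨hI, hb⟩ := int_k hm hg hE hm0 h
  have h2 : ‖∫ y, g y / (x - y)‖ ≤ ∫ y, m⁻¹ * |g y| := by
    refine norm_integral_le_of_norm_le (hg.abs.const_mul m⁻¹) (Eventually.of_forall fun y => ?_)
    rw [Real.norm_eq_abs]
    exact hb y
  have h3 : ∫ y, m⁻¹ * |g y| = m⁻¹ := by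
    rw [integral_const_mul]
    have : ∫ y, |g y| = 1 := by
      rw [← h1]
      exact integral_congr_ae (Eventually.of_forall fun y => abs_of_nonneg (h0 y))
    rw [this, mul_one]
  rw [h3, Real.norm_eq_abs] at h2
  exact h2

/-- test function of constant sign: lower bound -/
theorem near_ge {g : ℝ → ℝ} (hm : Measurable g) (hg : Integrable g) (h0 : ∀ x, 0 ≤ g x)
    (h1 : ∫ x, g x = 1) {E : Set ℝ} (hE : ∀ x, x ∉ E → g x = 0) {x m M : ℝ} (hm0 : 0 < m)
    (h : ∀ y ∈ E, m ≤ |x - y|)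
    (hs : (∀ y ∈ E, 0 < x - y ∧ x - y ≤ M) ∨ (∀ y ∈ E, 0 < y - x ∧ y - x ≤ M)) :
    M⁻¹ ≤ |∫ y, g y / (x - y)| := by
  obtain ⟨hI, hb⟩ := int_k hm hg hE hm0 h
  have h3 : ∫ y, M⁻¹ * g y = M⁻¹ := by rw [integral_const_mul, h1, mul_one]
  rcases hs with hs | hs
  · refine le_trans ?_ (le_abs_self _)
    rw [← h3]
    refine integral_mono (hg.const_mul _) hI fun y => ?_
    by_cases hy : y ∈ E
    · obtain ⟨ha, hb'⟩ := hs y hy
      change M⁻¹ * g y ≤ g y / (x - y)
      rw [div_eq_inv_mul]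
      exact mul_le_mul_of_nonneg_right (inv_anti₀ ha hb') (h0 y)
    · simp only [hE y hy, mul_zero, zero_div, le_refl]
  · refine le_trans ?_ (neg_le_abs _)
    rw [← h3, ← integral_neg]
    refine integral_mono (hg.const_mul _) hI.neg fun y => ?_
    by_cases hy : y ∈ E
    · obtain ⟨ha, hb'⟩ := hs y hy
      change M⁻¹ * g y ≤ -(g y / (x - y))
      rw [← div_neg, neg_sub, div_eq_inv_mul]
      exact mul_le_mul_of_nonneg_right (inv_anti₀ ha hb') (h0 y)
    · simp only [hE y hy, mul_zero, zero_div, neg_zero, le_refl]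

/-- JOB HW-E1 -/
theorem t_E1 (hTF : S_TF) : S_E1 := by
  intro p u C hS R₀ hR₀ hfin hdbl
  have hp := hS.hp
  have hp0 : 0 < p := by linarith
  have hp1 : 0 < p - 1 := by linarith
  refine ⟨2 ^ p * C * (1 + 2 ^ (p - 1)), fun R hR => ?_⟩
  set J : Set ℝ := {x : ℝ | 4 * R₀ < |x| ∧ |x| < R / 8} with hJ
  set T : Set ℝ := {y : ℝ | R < |y|} with hT
  set K : Set ℝ := Icc (-R₀) R₀ with hK
  have hTm : MeasurableSet T := measurableSet_lt measurable_const continuous_abs.measurable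
  have hJo : IsOpen J := (isOpen_lt continuous_const continuous_abs).inter
    (isOpen_lt continuous_abs continuous_const)
  have hτ : ms (sg p u) T ≤ 2 * ms (sg p u) K :=
    (lintegral_mono_set (subset_univ T)).trans hdbl
  have hAe : (((2 : ℝ≥0) ^ p * C * (1 + 2 ^ (p - 1)) : ℝ≥0) : ℝ≥0∞) =
      2 ^ p * C * (1 + 2 ^ (p - 1)) := by
    rw [ENNReal.coe_mul, ENNReal.coe_mul, ENNReal.coe_add, ENNReal.coe_rpow_of_nonneg _ hp0.le,
      ENNReal.coe_rpow_of_nonneg _ hp1.le]
    rfl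
  rw [hAe]
  -- the main inequality
  have main : ∀ s : ℝ≥0, 0 < s → (s : ℝ≥0∞) < ms (sg p u) T →
      ∫⁻ x in J, u x * ENNReal.ofReal |x| ^ (-p) ≤
        2 ^ p * C * (1 + 2 ^ (p - 1)) * (s : ℝ≥0∞) ^ (1 - p) := by
    intro s hs hsT
    have ht : ((s / 2 : ℝ≥0) : ℝ≥0∞) < ms (sg p u) K := by
      have h1 : (s : ℝ≥0∞) < 2 * ms (sg p u) K := lt_of_lt_of_le hsT hτ
      rw [ENNReal.coe_div two_ne_zero, ENNReal.div_lt_iff (Or.inl (by norm_num))
        (Or.inl (by norm_num)), mul_comm]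
      exact h1
    obtain ⟨g, gm, gi, g0, gE, -, -, g1, gp⟩ := hTF p hp u hS.meas hS.fin T hTm s hs hsT
    obtain ⟨k, km, ki, k0, kE, -, -, k1, kp⟩ := hTF p hp u hS.meas hS.fin K measurableSet_Icc
      (s / 2) (by positivity) ht
    have hadm := hS.adm (fun y => g y - k y) (gm.sub km) (gi.sub ki)
      (by rw [integral_sub gi ki, g1, k1, sub_self]) J hJo (by
        rintro x ⟨h1, h2⟩
        have h3 : x ∉ T := fun h => by
          have h' : R < |x| := h
          linarith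
        have h4 : x ∉ K := fun h => by
          have h' : |x| ≤ R₀ := abs_le.2 h
          linarith
        simp only [gE x h3, kE x h4, sub_self])
    have low : ∀ x ∈ J, 1 / (2 * |x|) ≤ |∫ y, (g y - k y) / (x - y)| := by
      rintro x ⟨h1, h2⟩
      have hx0 : 0 < |x| := by linarith
      have hgT : ∀ y ∈ T, 7 * |x| ≤ |x - y| := by
        intro y hy
        have hy' : R < |y| := hy
        have h3 : |y| - |x| ≤ |x - y| := by
          rw [abs_sub_comm]
          exact abs_sub_abs_le_abs_sub y x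
        linarith
      have hkK : ∀ y ∈ K, 3 / 4 * |x| ≤ |x - y| := by
        intro y hy
        have hy' : |y| ≤ R₀ := abs_le.2 hy
        have h3 : |x| - |y| ≤ |x - y| := abs_sub_abs_le_abs_sub x y
        linarith
      have a1 := far_le gm gi g0 g1 gE (m := 7 * |x|) (by linarith) hgT
      have a2 := near_ge km ki k0 k1 kE (m := 3 / 4 * |x|) (M := 5 / 4 * |x|) (by linarith) hkK (by
        rcases lt_or_ge 0 x with hx | hx
        · left
          intro y hy
          rw [abs_of_pos hx] at h1 ⊢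
          exact ⟨by linarith [hy.2], by linarith [hy.1]⟩
        · right
          intro y hy
          rw [abs_of_nonpos hx] at h1 ⊢
          exact ⟨by linarith [hy.1], by linarith [hy.2]⟩)
      have e1 : ∫ y, (g y - k y) / (x - y) = (∫ y, g y / (x - y)) - ∫ y, k y / (x - y) := by
        rw [← integral_sub (int_k gm gi gE (m := 7 * |x|) (by linarith) hgT).1
          (int_k km ki kE (m := 3 / 4 * |x|) (by linarith) hkK).1]
        refine integral_congr_ae (Eventually.of_forall fun y => ?_)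
        simp only
        ring
      rw [e1]
      have e2 : |∫ y, k y / (x - y)| - |∫ y, g y / (x - y)| ≤
          |(∫ y, g y / (x - y)) - ∫ y, k y / (x - y)| := by
        rw [abs_sub_comm]
        exact abs_sub_abs_le_abs_sub _ _
      have e3 : 1 / (2 * |x|) ≤ (5 / 4 * |x|)⁻¹ - (7 * |x|)⁻¹ := by
        have : (5 / 4 * |x|)⁻¹ - (7 * |x|)⁻¹ - 1 / (2 * |x|) = 11 / (70 * |x|) := by
          field_simp
          norm_num
        have h5 : 0 ≤ 11 / (70 * |x|) := by positivity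
        linarith
      linarith
    -- the left side
    have h2p0 : (2 : ℝ≥0∞) ^ p ≠ 0 := by
      simp [ENNReal.rpow_eq_zero_iff]
    have h2pt : (2 : ℝ≥0∞) ^ p ≠ ∞ := ENNReal.rpow_ne_top_of_nonneg hp0.le ENNReal.ofNat_ne_top
    have left : ∫⁻ x in J, u x * ENNReal.ofReal |x| ^ (-p) ≤ 2 ^ p *
        ∫⁻ x in J, ENNReal.ofReal |∫ y, (g y - k y) / (x - y)| ^ p * u x := by
      rw [← lintegral_const_mul' _ _ h2pt]
      refine setLIntegral_mono_ae' hJo.measurableSet (Eventually.of_forall fun x hx => ?_)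
      have h1 := low x hx
      have hx0 : 0 < |x| := by linarith [hx.1]
      have h2 : ENNReal.ofReal |x| ^ (-p) = 2 ^ p * ENNReal.ofReal (1 / (2 * |x|)) ^ p := by
        rw [← ENNReal.mul_rpow_of_nonneg _ _ hp0.le, ENNReal.rpow_neg, ← ENNReal.inv_rpow]
        congr 1
        rw [← ENNReal.ofReal_inv_of_pos hx0, ← ENNReal.ofReal_ofNat 2,
          ← ENNReal.ofReal_mul (by norm_num)]
        congr 1
        field_simp
      rw [h2]
      calc u x * (2 ^ p * ENNReal.ofReal (1 / (2 * |x|)) ^ p) =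
            2 ^ p * (ENNReal.ofReal (1 / (2 * |x|)) ^ p * u x) := by ring
        _ ≤ _ := by gcongr
    -- the right side
    have right : ∫⁻ x, ENNReal.ofReal |g x - k x| ^ p * u x ≤
        (s : ℝ≥0∞) ^ (1 - p) + ((s / 2 : ℝ≥0) : ℝ≥0∞) ^ (1 - p) := by
      have mg : Measurable (fun x => ENNReal.ofReal (g x) ^ p * u x) :=
        ((gm.ennreal_ofReal).pow_const p).mul hS.meas
      calc ∫⁻ x, ENNReal.ofReal |g x - k x| ^ p * u x ≤
            ∫⁻ x, (ENNReal.ofReal (g x) ^ p * u x + ENNReal.ofReal (k x) ^ p * u x) := by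
            refine lintegral_mono fun x => ?_
            by_cases hx : x ∈ T
            · have hxK : x ∉ K := fun h => by
                have h' : |x| ≤ R₀ := abs_le.2 h
                have h'' : R < |x| := hx
                linarith
              simp only [kE x hxK, sub_zero, abs_of_nonneg (g0 x)]
              exact le_self_add
            · simp only [gE x hx, zero_sub, abs_neg, abs_of_nonneg (k0 x)]
              exact le_add_self
        _ = (∫⁻ x, ENNReal.ofReal (g x) ^ p * u x) + ∫⁻ x, ENNReal.ofReal (k x) ^ p * u x :=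
            lintegral_add_left mg _
        _ ≤ _ := add_le_add gp kp
    have hs2 : ((s / 2 : ℝ≥0) : ℝ≥0∞) ^ (1 - p) = 2 ^ (p - 1) * (s : ℝ≥0∞) ^ (1 - p) := by
      rw [ENNReal.coe_div two_ne_zero, ENNReal.div_eq_inv_mul, ENNReal.mul_rpow_of_ne_zero
        (by simp) (by exact_mod_cast hs.ne'), ENNReal.inv_rpow, ← ENNReal.rpow_neg, neg_sub]
      rfl
    rw [hs2] at right
    calc ∫⁻ x in J, u x * ENNReal.ofReal |x| ^ (-p) ≤ 2 ^ p *
        ∫⁻ x in J, ENNReal.ofReal |∫ y, (g y - k y) / (x - y)| ^ p * u x := left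
      _ ≤ 2 ^ p * (C * ((s : ℝ≥0∞) ^ (1 - p) + 2 ^ (p - 1) * (s : ℝ≥0∞) ^ (1 - p))) := by
          gcongr
          exact hadm.trans (by gcongr)
      _ = _ := by ring
  by_cases hτ0 : ms (sg p u) T = 0
  · rw [hτ0, ENNReal.zero_rpow_of_neg (by linarith), ENNReal.mul_top]
    · exact le_top
    · refine mul_ne_zero (mul_ne_zero ?_ ?_) ?_
      · simp [ENNReal.rpow_eq_zero_iff]
      · exact_mod_cast hS.hC.ne'
      · exact (lt_of_lt_of_le one_pos le_self_add).ne'
  · have hcont : Continuous fun z : ℝ≥0∞ => 2 ^ p * C * (1 + 2 ^ (p - 1)) * z ^ (1 - p) := by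
      refine ENNReal.continuous_const_mul ?_ |>.comp (ENNReal.continuous_rpow_const)
      exact ENNReal.mul_ne_top (ENNReal.mul_ne_top
        (ENNReal.rpow_ne_top_of_nonneg hp0.le ENNReal.ofNat_ne_top) ENNReal.coe_ne_top)
        (ENNReal.add_ne_top.2 ⟨ENNReal.one_ne_top,
          ENNReal.rpow_ne_top_of_nonneg hp1.le ENNReal.ofNat_ne_top⟩)
    have hne : (𝓝[<] (ms (sg p u) T)).NeBot :=
      nhdsLT_neBot_of_exists_lt ⟨0, pos_iff_ne_zero.2 hτ0⟩
    have hlim : Tendsto (fun z : ℝ≥0∞ => 2 ^ p * C * (1 + 2 ^ (p - 1)) * z ^ (1 - p))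
        (𝓝[<] (ms (sg p u) T)) (𝓝 (2 ^ p * C * (1 + 2 ^ (p - 1)) * ms (sg p u) T ^ (1 - p))) :=
      (hcont.tendsto (ms (sg p u) T)).mono_left nhdsWithin_le_nhds
    refine ge_of_tendsto hlim ?_
    filter_upwards [Ioo_mem_nhdsLT (pos_iff_ne_zero.2 hτ0)] with z hz
    lift z to ℝ≥0 using (lt_of_lt_of_le hz.2 le_top).ne with s
    exact main s (by exact_mod_cast hz.1) hz.2

end Pool.Agent.Q121.HW
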