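import Pool.Agent.Q79.HW.StmS

/-!
# HW-PW: pointwise bounds of the principal value by the maximal truncations
-/

set_option autoImplicit false

open MeasureTheory Filter Topology Set
open scoped ENNReal NNReal Real

namespace Pool.Agent.Q121.HW

open Pool.Agent.Q79.HW

/-- the set of the integration -/
def SS (δ x : ℝ) : Set ℝ := {y : ℝ | δ < |y - x|}

theorem SS_meas (δ x : ℝ) : MeasurableSet (SS δ x) :=
  measurableSet_lt measurable_const ((measurable_id.sub_const x).abs)

theorem int_div {𝕜 : Type} [RCLike 𝕜] {f : ℝ → 𝕜} (hm : Measurable f) (hf : Integrable f)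
    {δ : ℝ} (x : ℝ) (hδ : 0 < δ) :
    IntegrableOn (fun y => f y / ((x - y : ℝ) : 𝕜)) (SS δ x) := by
  have h1 : AEStronglyMeasurable (fun y => f y / ((x - y : ℝ) : 𝕜)) (volume.restrict (SS δ x)) := by
    refine Measurable.aestronglyMeasurable (hm.div ?_)
    exact RCLike.continuous_ofReal.measurable.comp (measurable_const.sub measurable_id)
  refine Integrable.mono' (hf.norm.const_mul δ⁻¹).integrableOn h1 ?_
  refine (ae_restrict_iff' (SS_meas δ x)).2 (Eventually.of_forall fun y hy => ?_)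
  have hy' : δ < |x - y| := by rw [abs_sub_comm]; exact hy
  rw [norm_div, RCLike.norm_ofReal, div_eq_inv_mul]
  exact mul_le_mul_of_nonneg_right (inv_anti₀ hδ hy'.le) (norm_nonneg _)

/-- the truncated integral of a real function -/
noncomputable def RT (g : ℝ → ℝ) (δ x : ℝ) : ℝ := ∫ y in SS δ x, g y / (x - y)

theorem RT_le (g : ℝ → ℝ) {δ : ℝ} (hδ : 0 < δ) (x : ℝ) :
    ‖RT g δ x‖ₑ ≤ TSR (fun y => ((g y : ℝ) : ℂ)) x := by
  have h1 : ∫ y in {y : ℝ | δ < |y - x|}, ((g y : ℝ) : ℂ) / ((x - y : ℝ) : ℂ) =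
      ((RT g δ x : ℝ) : ℂ) := by
    unfold RT
    rw [← integral_complex_ofReal]
    refine integral_congr_ae (Eventually.of_forall fun y => ?_)
    simp only
    push_cast
    rfl
  have h2 : ‖RT g δ x‖ₑ = ‖∫ y in {y : ℝ | δ < |y - x|}, ((g y : ℝ) : ℂ) / ((x - y : ℝ) : ℂ)‖ₑ := by
    rw [h1, ← ofReal_norm, ← ofReal_norm, Complex.norm_real]
  rw [h2]
  exact le_iSup₂ (f := fun (δ : ℝ) (_ : 0 < δ) =>
    ‖∫ y in {y : ℝ | δ < |y - x|}, ((g y : ℝ) : ℂ) / ((x - y : ℝ) : ℂ)‖ₑ) δ hδ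

variable {𝕜 : Type} [RCLike 𝕜] {f : ℝ → 𝕜}

theorem norm_le_re_im (z : 𝕜) : ‖z‖ ≤ ‖RCLike.re z‖ + ‖RCLike.im z‖ := by
  have h1 := RCLike.norm_sq_eq_def (z := z)
  have h2 : ‖z‖ ^ 2 ≤ (‖RCLike.re z‖ + ‖RCLike.im z‖) ^ 2 := by
    rw [h1, Real.norm_eq_abs, Real.norm_eq_abs]
    nlinarith [sq_abs (RCLike.re z), sq_abs (RCLike.im z), abs_nonneg (RCLike.re z),
      abs_nonneg (RCLike.im z), mul_nonneg (abs_nonneg (RCLike.re z)) (abs_nonneg (RCLike.im z))]
  exact (pow_le_pow_iff_left₀ (norm_nonneg _) (by positivity) two_ne_zero).1 h2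

theorem re_im (hm : Measurable f) (hf : Integrable f) {δ : ℝ} (x : ℝ) (hδ : 0 < δ) :
    ‖trunc f δ x‖ₑ ≤ ‖RT (fun y => RCLike.re (f y)) δ x‖ₑ +
      ‖RT (fun y => RCLike.im (f y)) δ x‖ₑ := by
  have hI := int_div hm hf x hδ
  have e1 : RCLike.re (∫ y in SS δ x, f y / ((x - y : ℝ) : 𝕜)) =
      RT (fun y => RCLike.re (f y)) δ x := by
    unfold RT
    rw [← integral_re hI]
    refine integral_congr_ae (Eventually.of_forall fun y => ?_)
    simp only
    rw [RCLike.div_re_ofReal]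
  have e2 : RCLike.im (∫ y in SS δ x, f y / ((x - y : ℝ) : 𝕜)) =
      RT (fun y => RCLike.im (f y)) δ x := by
    unfold RT
    rw [← integral_im hI]
    refine integral_congr_ae (Eventually.of_forall fun y => ?_)
    simp only
    rw [div_eq_mul_inv, ← RCLike.ofReal_inv, RCLike.im_mul_ofReal, ← div_eq_mul_inv]
  have h1 : ‖trunc f δ x‖ ≤ ‖∫ y in SS δ x, f y / ((x - y : ℝ) : 𝕜)‖ := by
    unfold trunc
    rw [norm_mul, RCLike.norm_ofReal]
    have hpi : |1 / π| ≤ 1 := by
      rw [abs_of_pos (by positivity), div_le_one Real.pi_pos]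
      linarith [Real.pi_gt_three]
    exact mul_le_of_le_one_left (norm_nonneg _) hpi
  have h2 : ‖∫ y in SS δ x, f y / ((x - y : ℝ) : 𝕜)‖ ≤
      ‖RT (fun y => RCLike.re (f y)) δ x‖ + ‖RT (fun y => RCLike.im (f y)) δ x‖ := by
    rw [← e1, ← e2]
    exact norm_le_re_im _
  rw [← ofReal_norm, ← ofReal_norm, ← ofReal_norm,
    ← ENNReal.ofReal_add (norm_nonneg _) (norm_nonneg _)]
  exact ENNReal.ofReal_le_ofReal (h1.trans h2)

/-- limits -/
theorem hilb_le {x : ℝ} {B : ℝ≥0∞}
    (h : ∀ L : 𝕜, Tendsto (fun δ : ℝ => trunc f δ x) (𝓝[>] 0) (𝓝 L) → ‖L‖ₑ ≤ B) :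
    ‖hilb f x‖ₑ ≤ B := by
  unfold hilb
  split_ifs with h1
  · exact h _ h1.choose_spec
  · rw [enorm_zero]
    exact zero_le

/-- shift identity -/
theorem RT_shift {g : ℝ → ℝ} (hm : Measurable g) (hg : Integrable g) (c x : ℝ) {δ : ℝ}
    (hδ : 0 < δ) : (x - c) * RT g δ x = (∫ y in SS δ x, g y) + RT (fun y => (y - c) * g y) δ x := by
  have hI := int_div hm hg x hδ
  have hI' : IntegrableOn (fun y => g y / (x - y)) (SS δ x) := by simpa using hI
  have h1 : RT (fun y => (y - c) * g y) δ x =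
      ∫ y in SS δ x, ((x - c) * (g y / (x - y)) - g y) := by
    unfold RT
    refine setIntegral_congr_fun (SS_meas δ x) fun y hy => ?_
    have hne : x - y ≠ 0 := by
      intro h0
      have hy' : δ < |y - x| := hy
      rw [show y - x = -(x - y) by ring, h0, neg_zero, abs_zero] at hy'
      linarith
    simp only
    field_simp
    ring
  rw [h1, integral_sub (hI'.const_mul _) hg.integrableOn, integral_const_mul]
  unfold RT
  ring

/-- the integral over the complement of a small interval -/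
theorem tendsto_SS {g : ℝ → ℝ} (hg : Integrable g) (h0 : ∫ y, g y = 0) (x : ℝ) :
    Tendsto (fun δ : ℝ => ‖∫ y in SS δ x, g y‖ₑ) (𝓝[>] 0) (𝓝 0) := by
  have h1 : Tendsto (fun δ : ℝ => ∫ y, (SS δ x).indicator g y) (𝓝[>] 0) (𝓝 (∫ y, g y)) := by
    refine tendsto_integral_filter_of_dominated_convergence (fun y => ‖g y‖)
      (Eventually.of_forall fun δ => hg.aestronglyMeasurable.indicator (SS_meas δ x))
      (Eventually.of_forall fun δ => Eventually.of_forall fun y => norm_indicator_le_norm_self _ _)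
      hg.norm ?_
    have hx : ∀ᵐ y : ℝ, y ≠ x := by
      have := (volume : Measure ℝ).ae_ne x
      exact this
    filter_upwards [hx] with y hy
    have hpos : 0 < |y - x| := abs_pos.2 (sub_ne_zero.2 hy)
    refine tendsto_const_nhds.congr' ?_
    filter_upwards [Ioo_mem_nhdsGT hpos] with δ hδ
    rw [indicator_of_mem (show y ∈ SS δ x from hδ.2)]
  rw [h0] at h1
  have h2 := h1.enorm
  rw [enorm_zero] at h2
  refine h2.congr fun δ => ?_
  rw [integral_indicator (SS_meas δ x)]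

theorem t_PW : S_PW := by
  intro 𝕜 _ f hm hf h0 x
  have hre : Integrable (fun y => RCLike.re (f y)) := hf.re
  have him : Integrable (fun y => RCLike.im (f y)) := hf.im
  have mre : Measurable (fun y => RCLike.re (f y)) := RCLike.measurable_re.comp hm
  have mim : Measurable (fun y => RCLike.im (f y)) := RCLike.measurable_im.comp hm
  have zre : ∫ y, RCLike.re (f y) = 0 := by rw [integral_re hf, h0, map_zero]
  have zim : ∫ y, RCLike.im (f y) = 0 := by rw [integral_im hf, h0, map_zero]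
  refine ⟨?_, fun c => ?_⟩
  · refine hilb_le fun L hL => ?_
    refine le_of_tendsto hL.enorm ?_
    filter_upwards [self_mem_nhdsWithin] with δ hδ
    exact (re_im hm hf x hδ).trans (add_le_add (RT_le _ hδ x) (RT_le _ hδ x))
  · unfold hilb
    split_ifs with h1
    · have hL := h1.choose_spec
      have h2 : Tendsto (fun δ : ℝ => ENNReal.ofReal |x - c| * ‖trunc f δ x‖ₑ) (𝓝[>] 0)
          (𝓝 (ENNReal.ofReal |x - c| * ‖h1.choose‖ₑ)) :=
        ENNReal.Tendsto.const_mul hL.enorm (Or.inr ENNReal.ofReal_ne_top)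
      have h3 : Tendsto (fun δ : ℝ => (‖∫ y in SS δ x, RCLike.re (f y)‖ₑ +
          ‖∫ y in SS δ x, RCLike.im (f y)‖ₑ) +
          (TSR (fun y => (((y - c) * RCLike.re (f y) : ℝ) : ℂ)) x +
            TSR (fun y => (((y - c) * RCLike.im (f y) : ℝ) : ℂ)) x)) (𝓝[>] 0)
          (𝓝 ((0 + 0) + (TSR (fun y => (((y - c) * RCLike.re (f y) : ℝ) : ℂ)) x +
            TSR (fun y => (((y - c) * RCLike.im (f y) : ℝ) : ℂ)) x))) :=
        ((tendsto_SS hre zre x).add (tendsto_SS him zim x)).add tendsto_const_nhds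
      rw [add_zero, zero_add] at h3
      refine le_of_tendsto_of_tendsto h2 h3 ?_
      filter_upwards [self_mem_nhdsWithin] with δ hδ
      have k1 : ∀ g : ℝ → ℝ, Measurable g → Integrable g →
          ENNReal.ofReal |x - c| * ‖RT g δ x‖ₑ ≤ ‖∫ y in SS δ x, g y‖ₑ +
            TSR (fun y => (((y - c) * g y : ℝ) : ℂ)) x := by
        intro g mg ig
        have e1 : ENNReal.ofReal |x - c| = ‖x - c‖ₑ := by
          rw [← ofReal_norm, Real.norm_eq_abs]
        rw [e1, ← enorm_mul, RT_shift mg ig c x hδ]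
        exact (enorm_add_le _ _).trans (add_le_add le_rfl (RT_le _ hδ x))
      calc ENNReal.ofReal |x - c| * ‖trunc f δ x‖ₑ ≤ ENNReal.ofReal |x - c| *
            (‖RT (fun y => RCLike.re (f y)) δ x‖ₑ + ‖RT (fun y => RCLike.im (f y)) δ x‖ₑ) := by
            gcongr
            exact re_im hm hf x hδ
        _ = ENNReal.ofReal |x - c| * ‖RT (fun y => RCLike.re (f y)) δ x‖ₑ +
            ENNReal.ofReal |x - c| * ‖RT (fun y => RCLike.im (f y)) δ x‖ₑ := by rw [mul_add]
        _ ≤ _ := add_le_add (k1 _ mre hre) (k1 _ mim him)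
        _ = _ := by ring
    · rw [enorm_zero, mul_zero]
      exact zero_le

end Pool.Agent.Q121.HW
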