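import Pool.Agent.Q121.HW.PW

/-!
# HW-SUF: sufficiency
-/

set_option autoImplicit false

open MeasureTheory Filter Topology Set
open scoped ENNReal NNReal Real

namespace Pool.Agent.Q121.HW

open Pool.Agent.Q79.HW

/-- all truncated integrals converge -/
def HH (F : ℝ → ℂ) : Prop := ∀ δ x : ℝ, 0 < δ →
  IntegrableOn (fun y => F y / ((x - y : ℝ) : ℂ)) (SS δ x)

/-- the truncated integral -/
noncomputable def CT (F : ℝ → ℂ) (δ x : ℝ) : ℂ := ∫ y in SS δ x, F y / ((x - y : ℝ) : ℂ)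

theorem CT_meas {F : ℝ → ℂ} (hF : Measurable F) (δ : ℝ) : Measurable (CT F δ) := by
  have h1 : Measurable (fun z : ℝ × ℝ => ({w : ℝ × ℝ | δ < |w.2 - w.1|}).indicator
      (fun w : ℝ × ℝ => F w.2 / ((w.1 - w.2 : ℝ) : ℂ)) z) := by
    refine Measurable.indicator ?_ ?_
    · exact (hF.comp measurable_snd).div
        (Complex.measurable_ofReal.comp (measurable_fst.sub measurable_snd))
    · exact measurableSet_lt measurable_const
        (continuous_abs.measurable.comp (measurable_snd.sub measurable_fst))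
  have h2 := h1.stronglyMeasurable.integral_prod_right' (ν := (volume : Measure ℝ))
  have h3 : CT F δ = fun x => ∫ y, ({w : ℝ × ℝ | δ < |w.2 - w.1|}).indicator
      (fun w : ℝ × ℝ => F w.2 / ((w.1 - w.2 : ℝ) : ℂ)) (x, y) := by
    funext x
    unfold CT
    rw [← integral_indicator (SS_meas δ x)]
    refine integral_congr_ae (Eventually.of_forall fun y => ?_)
    simp only [indicator, SS, mem_setOf_eq]
  rw [h3]
  exact h2.measurable

theorem CT_right {F : ℝ → ℂ} (hF : Measurable F) (hH : HH F) {δ : ℝ} (hδ : 0 < δ) (x : ℝ) :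
    Tendsto (fun q : ℝ => CT F q x) (𝓝[>] δ) (𝓝 (CT F δ x)) := by
  have e : ∀ q, CT F q x = ∫ y, (SS q x).indicator (fun y => F y / ((x - y : ℝ) : ℂ)) y :=
    fun q => by
      unfold CT
      rw [integral_indicator (SS_meas q x)]
  simp only [e]
  have hm : Measurable (fun y => F y / ((x - y : ℝ) : ℂ)) :=
    hF.div (Complex.measurable_ofReal.comp (measurable_const.sub measurable_id))
  refine tendsto_integral_filter_of_dominated_convergence
    (fun y => ‖(SS δ x).indicator (fun y => F y / ((x - y : ℝ) : ℂ)) y‖)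
    (Eventually.of_forall fun q => (hm.indicator (SS_meas q x)).aestronglyMeasurable) ?_
    ((integrable_indicator_iff (SS_meas δ x)).2 (hH δ x hδ)).norm ?_
  · filter_upwards [self_mem_nhdsWithin] with q hq
    refine Eventually.of_forall fun y => ?_
    by_cases hy : y ∈ SS q x
    · have hy' : y ∈ SS δ x := lt_trans (show δ < q from hq) hy
      rw [indicator_of_mem hy, indicator_of_mem hy']
    · rw [indicator_of_notMem hy, norm_zero]
      exact norm_nonneg _
  · refine Eventually.of_forall fun y => ?_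
    by_cases hy : y ∈ SS δ x
    · refine tendsto_const_nhds.congr' ?_
      have h1 : δ < |y - x| := hy
      filter_upwards [Ioo_mem_nhdsGT h1] with q hq
      rw [indicator_of_mem hy, indicator_of_mem (show y ∈ SS q x from hq.2)]
    · refine tendsto_const_nhds.congr' ?_
      filter_upwards [self_mem_nhdsWithin] with q hq
      rw [indicator_of_notMem hy, indicator_of_notMem]
      intro h
      exact hy (lt_trans (show δ < q from hq) h)

theorem TSR_meas {F : ℝ → ℂ} (hF : Measurable F) (hH : HH F) : Measurable (TSR F) := by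
  have h1 : TSR F = fun x => ⨆ (q : ℚ) (_ : (0 : ℝ) < q), ‖CT F q x‖ₑ := by
    funext x
    refine le_antisymm ?_ ?_
    · refine iSup₂_le fun δ hδ => ?_
      by_contra hcon
      have hcon' := not_le.1 hcon
      have h2 := (CT_right hF hH hδ x).enorm
      have h3 : ∀ᶠ q in 𝓝[>] δ, (⨆ (q : ℚ) (_ : (0 : ℝ) < q), ‖CT F q x‖ₑ) < ‖CT F q x‖ₑ :=
        h2.eventually (lt_mem_nhds hcon')
      obtain ⟨b, hb, hb'⟩ := (mem_nhdsGT_iff_exists_Ioo_subset).1 h3
      obtain ⟨q, hq1, hq2⟩ := exists_rat_btwn (show δ < b from hb)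
      have h4 := hb' ⟨hq1, hq2⟩
      have h5 : ‖CT F q x‖ₑ ≤ (⨆ (q : ℚ) (_ : (0 : ℝ) < q), ‖CT F q x‖ₑ) :=
        le_iSup₂ (f := fun (q : ℚ) (_ : (0 : ℝ) < q) => ‖CT F q x‖ₑ) q (lt_trans hδ hq1)
      exact absurd h5 (not_le.2 h4)
    · refine iSup₂_le fun q hq => ?_
      exact le_iSup₂ (f := fun (δ : ℝ) (_ : 0 < δ) =>
        ‖∫ y in {y : ℝ | δ < |y - x|}, F y / ((x - y : ℝ) : ℂ)‖ₑ) (q : ℝ) hq
  rw [h1]
  exact Measurable.iSup fun q => Measurable.iSup fun _ => (CT_meas hF q).enorm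

theorem HH_of {g : ℝ → ℝ} (hm : Measurable g) (hg : Integrable g) :
    HH (fun y => ((g y : ℝ) : ℂ)) := fun δ x hδ =>
  int_div (𝕜 := ℂ) (Complex.measurable_ofReal.comp hm) hg.ofReal x hδ

theorem HH_shift {g : ℝ → ℝ} (hm : Measurable g) (hg : Integrable g) (c : ℝ) :
    HH (fun y => (((y - c) * g y : ℝ) : ℂ)) := by
  intro δ x hδ
  have h1 := ((HH_of hm hg δ x hδ).const_mul ((x - c : ℝ) : ℂ)).sub
    (hg.ofReal (𝕜 := ℂ)).integrableOn
  refine h1.congr ?_
  refine (ae_restrict_iff' (SS_meas δ x)).2 (Eventually.of_forall fun y hy => ?_)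
  have hne : (x : ℂ) - y ≠ 0 := by
    intro h0
    have hy' : δ < |y - x| := hy
    have h2 : x - y = 0 := by exact_mod_cast h0
    rw [show y - x = -(x - y) by ring, h2, neg_zero, abs_zero] at hy'
    linarith
  simp only [Pi.sub_apply]
  push_cast
  change ((x : ℂ) - c) * ((g y : ℂ) / (x - y)) - (g y : ℂ) = _
  field_simp
  ring

theorem two_bd {p : ℝ} (hp : 1 < p) {W : ℝ → ℝ} (hW : Measurable W) {C : ℝ≥0}
    (hC : ∀ f : ℝ → ℂ, Measurable f → ∫⁻ x, TSR f x ^ p * ENNReal.ofReal (W x) ≤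
      C * ∫⁻ x, ‖f x‖ₑ ^ p * ENNReal.ofReal (W x))
    {F G : ℝ → ℂ} (hF : Measurable F) (hG : Measurable G) (iF : HH F) {X : ℝ≥0∞}
    (bF : ∫⁻ x, ‖F x‖ₑ ^ p * ENNReal.ofReal (W x) ≤ X)
    (bG : ∫⁻ x, ‖G x‖ₑ ^ p * ENNReal.ofReal (W x) ≤ X) :
    ∫⁻ x, (TSR F x + TSR G x) ^ p * ENNReal.ofReal (W x) ≤ 2 ^ (p - 1) * (2 * C) * X := by
  have mF : Measurable (fun x => TSR F x ^ p * ENNReal.ofReal (W x)) :=
    ((TSR_meas hF iF).pow_const p).mul hW.ennreal_ofReal
  have h2 : (2 : ℝ≥0∞) ^ (p - 1) ≠ ∞ :=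
    ENNReal.rpow_ne_top_of_nonneg (by linarith) ENNReal.ofNat_ne_top
  calc ∫⁻ x, (TSR F x + TSR G x) ^ p * ENNReal.ofReal (W x) ≤
        ∫⁻ x, 2 ^ (p - 1) * (TSR F x ^ p * ENNReal.ofReal (W x) +
          TSR G x ^ p * ENNReal.ofReal (W x)) := by
        refine lintegral_mono fun x => ?_
        have h1 := ENNReal.rpow_add_le_mul_rpow_add_rpow (TSR F x) (TSR G x) hp.le
        calc (TSR F x + TSR G x) ^ p * ENNReal.ofReal (W x) ≤
              (2 ^ (p - 1) * (TSR F x ^ p + TSR G x ^ p)) * ENNReal.ofReal (W x) := by gcongr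
          _ = _ := by ring
    _ = 2 ^ (p - 1) * ((∫⁻ x, TSR F x ^ p * ENNReal.ofReal (W x)) +
          ∫⁻ x, TSR G x ^ p * ENNReal.ofReal (W x)) := by
        rw [lintegral_const_mul' _ _ h2, lintegral_add_left mF]
    _ ≤ 2 ^ (p - 1) * (C * X + C * X) := by
        gcongr
        · exact (hC F hF).trans (by gcongr)
        · exact (hC G hG).trans (by gcongr)
    _ = _ := by ring

section

variable {𝕜 : Type} [RCLike 𝕜]

theorem enorm_re (z : 𝕜) : ‖((RCLike.re z : ℝ) : ℂ)‖ₑ ≤ ‖z‖ₑ := by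
  rw [← ofReal_norm, ← ofReal_norm, Complex.norm_real]
  exact ENNReal.ofReal_le_ofReal (RCLike.norm_re_le_norm z)

theorem enorm_im (z : 𝕜) : ‖((RCLike.im z : ℝ) : ℂ)‖ₑ ≤ ‖z‖ₑ := by
  rw [← ofReal_norm, ← ofReal_norm, Complex.norm_real]
  exact ENNReal.ofReal_le_ofReal (RCLike.norm_im_le_norm z)

theorem enorm_shift (t r : ℝ) : ‖((t * r : ℝ) : ℂ)‖ₑ = ENNReal.ofReal |t| * ‖((r : ℝ) : ℂ)‖ₑ := by
  rw [Complex.ofReal_mul, enorm_mul, ← ofReal_norm ((t : ℝ) : ℂ), Complex.norm_real,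
    Real.norm_eq_abs]

open Classical in
/-- the value at a point as a function of the truncations -/
noncomputable def Hh (t : ℝ → 𝕜) : 𝕜 :=
  if h : ∃ L : 𝕜, Tendsto t (𝓝[>] 0) (𝓝 L) then h.choose else 0

/-- reduction to measurable functions -/
theorem hilb_congr {f g : ℝ → 𝕜} (h : f =ᵐ[volume] g) (x : ℝ) : hilb f x = hilb g x := by
  have e : (fun δ : ℝ => trunc f δ x) = fun δ : ℝ => trunc g δ x := by
    funext δ
    unfold trunc
    congr 1
    refine integral_congr_ae ?_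
    filter_upwards [ae_restrict_of_ae h] with y hy
    rw [hy]
  change Hh (fun δ : ℝ => trunc f δ x) = Hh (fun δ : ℝ => trunc g δ x)
  rw [e]

end

theorem t_SUF (hLINE : S_LINE) (hPW : S_PW) : S_SUF := by
  intro 𝕜 _ p hp U hU hcase
  have hp0 : 0 < p := by linarith
  -- a weight with the right properties suffices
  suffices h : ∃ C : ℝ≥0, ∀ f : ℝ → 𝕜, Measurable f → Integrable f → ∫ x, f x = 0 →
      ∫⁻ x, ‖hilb f x‖ₑ ^ p * ENNReal.ofReal (U x) ≤
        C * ∫⁻ x, ‖f x‖ₑ ^ p * ENNReal.ofReal (U x) by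
    obtain ⟨C, hC⟩ := h
    refine ⟨C, fun f hf h0 => ?_⟩
    have h1 := hf.1.ae_eq_mk
    have h2 := hC (hf.1.mk f) hf.1.stronglyMeasurable_mk.measurable (hf.congr h1)
      (by rw [← integral_congr_ae h1, h0])
    have e1 : ∫⁻ x, ‖f x‖ₑ ^ p * ENNReal.ofReal (U x) =
        ∫⁻ x, ‖hf.1.mk f x‖ₑ ^ p * ENNReal.ofReal (U x) := by
      refine lintegral_congr_ae ?_
      filter_upwards [h1] with x hx
      rw [hx]
    rw [e1]
    simpa only [hilb_congr h1] using h2
  -- pointwise facts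
  have mre : ∀ {f : ℝ → 𝕜}, Measurable f → Measurable (fun y => RCLike.re (f y)) :=
    fun hm => RCLike.measurable_re.comp hm
  have mim : ∀ {f : ℝ → 𝕜}, Measurable f → Measurable (fun y => RCLike.im (f y)) :=
    fun hm => RCLike.measurable_im.comp hm
  have wgt : ∀ (t : ℝ) (z : ℝ≥0∞), 0 ≤ t → ∀ u : ℝ, 0 ≤ u → t ≠ 0 →
      (ENNReal.ofReal t * z) ^ p * ENNReal.ofReal (u / t ^ p) = z ^ p * ENNReal.ofReal u := by
    intro t z ht u hu ht0
    have htp : 0 < t ^ p := Real.rpow_pos_of_pos (lt_of_le_of_ne ht ht0.symm) p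
    rw [ENNReal.mul_rpow_of_nonneg _ _ hp0.le, ENNReal.ofReal_rpow_of_nonneg ht hp0.le,
      mul_comm (ENNReal.ofReal (t ^ p)), mul_assoc, ← ENNReal.ofReal_mul htp.le,
      mul_div_cancel₀ _ htp.ne']
  rcases hcase with hA | hA | ⟨c, hA⟩
  · -- `U ∈ A_p`
    obtain ⟨C, hC⟩ := hLINE p hp U hA
    refine ⟨((2 : ℝ≥0) ^ (p - 1) * (2 * C)), fun f hm hf h0 => ?_⟩
    have h1 := fun x => (hPW 𝕜 f hm hf h0 x).1
    have h2 := two_bd hp hU.meas hC (F := fun y => ((RCLike.re (f y) : ℝ) : ℂ))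
      (G := fun y => ((RCLike.im (f y) : ℝ) : ℂ))
      (Complex.measurable_ofReal.comp (mre hm)) (Complex.measurable_ofReal.comp (mim hm))
      (HH_of (mre hm) hf.re) (X := ∫⁻ x, ‖f x‖ₑ ^ p * ENNReal.ofReal (U x))
      (lintegral_mono fun x => by
        have := enorm_re (f x)
        gcongr)
      (lintegral_mono fun x => by
        have := enorm_im (f x)
        gcongr)
    have h3 : ((((2 : ℝ≥0) ^ (p - 1) * (2 * C) : ℝ≥0)) : ℝ≥0∞) = 2 ^ (p - 1) * (2 * C) := by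
      rw [ENNReal.coe_mul, ENNReal.coe_rpow_of_nonneg _ (by linarith)]
      push_cast
      rfl
    rw [h3]
    refine le_trans (lintegral_mono fun x => ?_) h2
    have := h1 x
    gcongr
  · -- `U / (1 + |x|)^p ∈ A_p`
    obtain ⟨C, hC⟩ := hLINE p hp _ hA
    have hWm := hA.weight.meas
    refine ⟨((2 : ℝ≥0) ^ (p - 1) * ((2 : ℝ≥0) ^ (p - 1) * (2 * C) + (2 : ℝ≥0) ^ (p - 1) * (2 * C))),
      fun f hm hf h0 => ?_⟩
    have hWU : ∀ x, U x / (1 + |x|) ^ p ≤ U x := fun x => by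
      have h1 : (1 : ℝ) ≤ (1 + |x|) ^ p := Real.one_le_rpow (by linarith [abs_nonneg x]) hp0.le
      exact div_le_self (hU.nonneg x) h1
    have hWU' : ∀ x, |x - 0| ^ p * (U x / (1 + |x|) ^ p) ≤ U x := fun x => by
      have h1 : |x| ^ p ≤ (1 + |x|) ^ p :=
        Real.rpow_le_rpow (abs_nonneg x) (by linarith) hp0.le
      have h2 : 0 < (1 + |x|) ^ p := Real.rpow_pos_of_pos (by linarith [abs_nonneg x]) p
      rw [sub_zero, mul_div_assoc', div_le_iff₀ h2, mul_comm]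
      exact mul_le_mul_of_nonneg_left h1 (hU.nonneg x)
    have k1 := two_bd hp hWm hC (F := fun y => ((RCLike.re (f y) : ℝ) : ℂ))
      (G := fun y => ((RCLike.im (f y) : ℝ) : ℂ))
      (Complex.measurable_ofReal.comp (mre hm)) (Complex.measurable_ofReal.comp (mim hm))
      (HH_of (mre hm) hf.re) (X := ∫⁻ x, ‖f x‖ₑ ^ p * ENNReal.ofReal (U x))
      (lintegral_mono fun x => by
        have h1 := enorm_re (f x)
        have h2 := hWU x
        gcongr)
      (lintegral_mono fun x => by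
        have h1 := enorm_im (f x)
        have h2 := hWU x
        gcongr)
    have sh : ∀ (x r : ℝ) (z : ℝ≥0∞), ‖((r : ℝ) : ℂ)‖ₑ ≤ z →
        ‖(((x - 0) * r : ℝ) : ℂ)‖ₑ ^ p * ENNReal.ofReal (U x / (1 + |x|) ^ p) ≤
          z ^ p * ENNReal.ofReal (U x) := by
      intro x r z hz
      rw [enorm_shift, ENNReal.mul_rpow_of_nonneg _ _ hp0.le,
        ENNReal.ofReal_rpow_of_nonneg (abs_nonneg _) hp0.le, mul_comm (ENNReal.ofReal _),
        mul_assoc, ← ENNReal.ofReal_mul (by positivity)]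
      have h2 := hWU' x
      gcongr
    have k2 := two_bd hp hWm hC (F := fun y => (((y - 0) * RCLike.re (f y) : ℝ) : ℂ))
      (G := fun y => (((y - 0) * RCLike.im (f y) : ℝ) : ℂ))
      (Complex.measurable_ofReal.comp ((measurable_id.sub_const 0).mul (mre hm)))
      (Complex.measurable_ofReal.comp ((measurable_id.sub_const 0).mul (mim hm)))
      (HH_shift (mre hm) hf.re 0) (X := ∫⁻ x, ‖f x‖ₑ ^ p * ENNReal.ofReal (U x))
      (lintegral_mono fun x => sh x _ _ (enorm_re _))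
      (lintegral_mono fun x => sh x _ _ (enorm_im _))
    have h3 : ((((2 : ℝ≥0) ^ (p - 1) * ((2 : ℝ≥0) ^ (p - 1) * (2 * C) +
        (2 : ℝ≥0) ^ (p - 1) * (2 * C)) : ℝ≥0)) : ℝ≥0∞) =
        2 ^ (p - 1) * (2 ^ (p - 1) * (2 * C) + 2 ^ (p - 1) * (2 * C)) := by
      rw [ENNReal.coe_mul, ENNReal.coe_add, ENNReal.coe_mul, ENNReal.coe_rpow_of_nonneg _ (by linarith)]
      push_cast
      rfl
    have h2 : (2 : ℝ≥0∞) ^ (p - 1) ≠ ∞ :=
      ENNReal.rpow_ne_top_of_nonneg (by linarith) ENNReal.ofNat_ne_top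
    have m1 : Measurable (fun x => (TSR (fun y => ((RCLike.re (f y) : ℝ) : ℂ)) x +
        TSR (fun y => ((RCLike.im (f y) : ℝ) : ℂ)) x) ^ p *
          ENNReal.ofReal (U x / (1 + |x|) ^ p)) :=
      (((TSR_meas (Complex.measurable_ofReal.comp (mre hm)) (HH_of (mre hm) hf.re)).add
        (TSR_meas (Complex.measurable_ofReal.comp (mim hm)) (HH_of (mim hm) hf.im))).pow_const
          p).mul hWm.ennreal_ofReal
    rw [h3]
    calc ∫⁻ x, ‖hilb f x‖ₑ ^ p * ENNReal.ofReal (U x) ≤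
          ∫⁻ x, 2 ^ (p - 1) * ((TSR (fun y => ((RCLike.re (f y) : ℝ) : ℂ)) x +
            TSR (fun y => ((RCLike.im (f y) : ℝ) : ℂ)) x) ^ p *
              ENNReal.ofReal (U x / (1 + |x|) ^ p) +
            (TSR (fun y => (((y - 0) * RCLike.re (f y) : ℝ) : ℂ)) x +
            TSR (fun y => (((y - 0) * RCLike.im (f y) : ℝ) : ℂ)) x) ^ p *
              ENNReal.ofReal (U x / (1 + |x|) ^ p)) := by
          refine lintegral_mono fun x => ?_
          have hx1 : (0 : ℝ) < 1 + |x| := by positivity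
          have hP := hPW 𝕜 f hm hf h0 x
          have hP2 := hP.2 0
          rw [← wgt (1 + |x|) ‖hilb f x‖ₑ hx1.le (U x) (hU.nonneg x) hx1.ne']
          have e1 : ENNReal.ofReal (1 + |x|) * ‖hilb f x‖ₑ =
              ‖hilb f x‖ₑ + ENNReal.ofReal |x - 0| * ‖hilb f x‖ₑ := by
            rw [ENNReal.ofReal_add zero_le_one (abs_nonneg x), ENNReal.ofReal_one, add_mul,
              one_mul, sub_zero]
          rw [e1]
          calc (‖hilb f x‖ₑ + ENNReal.ofReal |x - 0| * ‖hilb f x‖ₑ) ^ p *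
                ENNReal.ofReal (U x / (1 + |x|) ^ p) ≤ ((TSR (fun y => ((RCLike.re (f y) : ℝ) : ℂ)) x +
            TSR (fun y => ((RCLike.im (f y) : ℝ) : ℂ)) x) +
            (TSR (fun y => (((y - 0) * RCLike.re (f y) : ℝ) : ℂ)) x +
            TSR (fun y => (((y - 0) * RCLike.im (f y) : ℝ) : ℂ)) x)) ^ p *
                ENNReal.ofReal (U x / (1 + |x|) ^ p) := by
                have h4 := add_le_add hP.1 hP2
                gcongr
            _ ≤ (2 ^ (p - 1) * ((TSR (fun y => ((RCLike.re (f y) : ℝ) : ℂ)) x +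
            TSR (fun y => ((RCLike.im (f y) : ℝ) : ℂ)) x) ^ p +
            (TSR (fun y => (((y - 0) * RCLike.re (f y) : ℝ) : ℂ)) x +
            TSR (fun y => (((y - 0) * RCLike.im (f y) : ℝ) : ℂ)) x) ^ p)) *
                ENNReal.ofReal (U x / (1 + |x|) ^ p) := by
                have h4 := ENNReal.rpow_add_le_mul_rpow_add_rpow
                  (TSR (fun y => ((RCLike.re (f y) : ℝ) : ℂ)) x +
                    TSR (fun y => ((RCLike.im (f y) : ℝ) : ℂ)) x)
                  (TSR (fun y => (((y - 0) * RCLike.re (f y) : ℝ) : ℂ)) x +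
                    TSR (fun y => (((y - 0) * RCLike.im (f y) : ℝ) : ℂ)) x) hp.le
                gcongr
            _ = _ := by ring
      _ = 2 ^ (p - 1) * (_ + _) := by
          rw [lintegral_const_mul' _ _ h2, lintegral_add_left m1]
      _ ≤ 2 ^ (p - 1) * (2 ^ (p - 1) * (2 * C) * (∫⁻ x, ‖f x‖ₑ ^ p * ENNReal.ofReal (U x)) +
            2 ^ (p - 1) * (2 * C) * (∫⁻ x, ‖f x‖ₑ ^ p * ENNReal.ofReal (U x))) := by
          gcongr
      _ = _ := by ring
  · -- `U / |x - c|^p ∈ A_p`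
    obtain ⟨C, hC⟩ := hLINE p hp _ hA
    refine ⟨((2 : ℝ≥0) ^ (p - 1) * (2 * C)), fun f hm hf h0 => ?_⟩
    have h1 := fun x => (hPW 𝕜 f hm hf h0 x).2 c
    have sh : ∀ (x r : ℝ) (z : ℝ≥0∞), ‖((r : ℝ) : ℂ)‖ₑ ≤ z →
        ‖(((x - c) * r : ℝ) : ℂ)‖ₑ ^ p * ENNReal.ofReal (U x / |x - c| ^ p) ≤
          z ^ p * ENNReal.ofReal (U x) := by
      intro x r z hz
      by_cases hx : |x - c| = 0
      · rw [enorm_shift, hx, ENNReal.ofReal_zero, zero_mul, ENNReal.zero_rpow_of_pos hp0, zero_mul]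
        exact zero_le
      · rw [enorm_shift, wgt _ _ (abs_nonneg _) _ (hU.nonneg x) hx]
        gcongr
    have h2 := two_bd hp hA.weight.meas hC (F := fun y => (((y - c) * RCLike.re (f y) : ℝ) : ℂ))
      (G := fun y => (((y - c) * RCLike.im (f y) : ℝ) : ℂ))
      (Complex.measurable_ofReal.comp ((measurable_id.sub_const c).mul (mre hm)))
      (Complex.measurable_ofReal.comp ((measurable_id.sub_const c).mul (mim hm)))
      (HH_shift (mre hm) hf.re c) (X := ∫⁻ x, ‖f x‖ₑ ^ p * ENNReal.ofReal (U x))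
      (lintegral_mono fun x => sh x _ _ (enorm_re _))
      (lintegral_mono fun x => sh x _ _ (enorm_im _))
    have h3 : ((((2 : ℝ≥0) ^ (p - 1) * (2 * C) : ℝ≥0)) : ℝ≥0∞) = 2 ^ (p - 1) * (2 * C) := by
      rw [ENNReal.coe_mul, ENNReal.coe_rpow_of_nonneg _ (by linarith)]
      push_cast
      rfl
    rw [h3]
    refine le_trans (lintegral_mono_ae ?_) h2
    filter_upwards [(volume : Measure ℝ).ae_ne c] with x hx
    have hx0 : |x - c| ≠ 0 := abs_ne_zero.2 (sub_ne_zero.2 hx)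
    rw [← wgt |x - c| ‖hilb f x‖ₑ (abs_nonneg _) (U x) (hU.nonneg x) hx0]
    have := h1 x
    gcongr

end Pool.Agent.Q121.HW
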